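import Pool.Agent.Zk60.EH.Prb
import Pool.Agent.TH761.EB.Horn
import Mathlib.Analysis.PSeries

/-!
# Boxes, and the growth condition
-/

set_option autoImplicit false

open Finset MeasureTheory ProbabilityTheory

namespace Pool.Agent.Zk60.EH

open Pool.Agent.TH761.EB (Bx Bi bs bt bx_conn)

variable {k : ℕ}

/-- the box of half-width `m` -/
noncomputable def box (k m : ℕ) : Finset (Fin k → ℤ) := Fintype.piFinset fun _ => Icc (-(m : ℤ)) m

lemma mem_box {m : ℕ} {y : Fin k → ℤ} : y ∈ box k m ↔ ∀ i, |y i| ≤ (m : ℤ) := by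
  unfold box
  rw [Fintype.mem_piFinset]
  refine forall_congr' fun i => ?_
  rw [mem_Icc, abs_le]

lemma card_box (k m : ℕ) : (box k m).card = (2 * m + 1) ^ k := by
  unfold box
  rw [Fintype.card_piFinset, Finset.prod_const, Finset.card_univ, Fintype.card_fin, Int.card_Icc]
  congr 1
  omega

lemma box_mono (k : ℕ) : Monotone (box k) := by
  intro m n h y hy
  rw [mem_box] at hy ⊢
  intro i
  exact (hy i).trans (by exact_mod_cast h)

lemma box_nonempty (k m : ℕ) : (box k m).Nonempty :=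
  ⟨0, mem_box.2 fun i => by simp⟩

/-- a point of the box -/
def up {m : ℕ} (y : Bx k m) : Fin k → ℤ := fun i => (y i : ℤ)

lemma up_mem {m : ℕ} (y : Bx k m) : up y ∈ box k m := by
  rw [mem_box]
  intro i
  rw [abs_le]
  exact mem_Icc.1 (y i).2

lemma exists_up {m : ℕ} {v : Fin k → ℤ} (hv : v ∈ box k m) : ∃ y : Bx k m, up y = v := by
  rw [mem_box] at hv
  exact ⟨fun i => ⟨v i, by rw [mem_Icc]; exact abs_le.1 (hv i)⟩, rfl⟩

lemma up_bt {m : ℕ} (p : Bi k m) : up (bt p) = up (bs p) + Pi.single p.1.2 1 := by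
  funext j
  unfold up bt bs
  by_cases h : j = p.1.2
  · subst h
    simp
  · simp [h]

lemma box_conn (k m : ℕ) : Conn (box k m) := by
  classical
  intro A hA hne hneq
  by_contra hcon
  push Not at hcon
  obtain ⟨y, hy⟩ := hne
  obtain ⟨y', hy', hy'A⟩ : ∃ y' ∈ box k m, y' ∉ A := by
    by_contra h
    push Not at h
    exact hneq (Finset.Subset.antisymm hA h)
  obtain ⟨x, hx⟩ := exists_up (hA hy)
  obtain ⟨x', hx'⟩ := exists_up hy'
  have h1 := bx_conn (k := k) (m := m) (fun x => if up x ∈ A then (1 : ℝ) else 0) (fun i => ?_) x x'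
  · rw [hx, hx', if_pos hy, if_neg hy'A] at h1
    norm_num at h1
  · by_cases ha : up (bs i) ∈ A <;> by_cases hb : up (bt i) ∈ A
    · rw [if_pos ha, if_pos hb]
    · exfalso
      exact (hcon _ ha _ (up_mem _) hb i.1.2).1 (up_bt i)
    · exfalso
      exact (hcon _ hb _ (up_mem _) ha i.1.2).2 (up_bt i)
    · rw [if_neg ha, if_neg hb]

/-- the growth condition -/
lemma not_summable_of_growth {g : ℕ → ℝ} (C : ℝ) (hC : 0 < C)
    (h : Filter.Tendsto (fun n : ℕ => g n / Real.log n) Filter.atTop (nhds 0)) :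
    ¬ Summable (fun n => Real.exp (-(C * g n))) := by
  intro hs
  have h1 : ∀ᶠ n : ℕ in Filter.atTop, g n / Real.log n < 1 / C :=
    h.eventually_lt_const (by positivity)
  have h2 : ∀ᶠ n : ℕ in Filter.atTop, 3 ≤ n := Filter.eventually_ge_atTop 3
  obtain ⟨n0, hn0⟩ := Filter.eventually_atTop.1 (h1.and h2)
  apply Real.not_summable_one_div_natCast
  rw [← summable_nat_add_iff n0]
  refine Summable.of_nonneg_of_le (fun n => by positivity) (fun n => ?_)
    ((summable_nat_add_iff n0).2 hs)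
  obtain ⟨h3, h4⟩ := hn0 (n + n0) (by omega)
  have hn : (0 : ℝ) < ((n + n0 : ℕ) : ℝ) := by exact_mod_cast (by omega : 0 < n + n0)
  have hlog : 0 < Real.log ((n + n0 : ℕ) : ℝ) :=
    Real.log_pos (by exact_mod_cast (by omega : 1 < n + n0))
  rw [div_lt_div_iff₀ hlog hC, one_mul] at h3
  calc 1 / ((n + n0 : ℕ) : ℝ) = Real.exp (-Real.log ((n + n0 : ℕ) : ℝ)) := by
        rw [Real.exp_neg, Real.exp_log hn, one_div]
    _ ≤ Real.exp (-(C * g (n + n0))) := by
        apply Real.exp_le_exp.2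
        linarith

end Pool.Agent.Zk60.EH
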