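import Pool.Agent.Zk60.EH.Reg

/-!
# Infinitely many pinned columns
-/

set_option autoImplicit false

open Finset MeasureTheory ProbabilityTheory

namespace Pool.Agent.Zk60.EH

variable {k : ℕ}

/-- the even one of `n`, `n + 1` -/
def ev (n : ℤ) : ℤ := if Even n then n else n + 1

/-- the window of a bond -/
def win (c : ℝ) (B : ℕ → Finset (Fin k → ℤ)) (e : (Fin (k + 1) → ℤ) × Fin (k + 1)) : Set ℝ :=
  if e.2 = 0 then Set.Ioo (-(c / (4 * (B (ev (e.1 0)).toNat).card)))
    (c / (4 * (B (ev (e.1 0)).toNat).card)) else Set.Ioi c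

open Classical in
/-- the bonds of a column -/
noncomputable def TT (B : Finset (Fin k → ℤ)) (z : ℤ) : Finset ((Fin (k + 1) → ℤ) × Fin (k + 1)) :=
  (B ×ˢ (Finset.univ : Finset (Fin k))).image (fun p => (pt z p.1, p.2.succ)) ∪
    (B.image (fun y => (pt z y, (0 : Fin (k + 1)))) ∪
      B.image (fun y => (pt (z - 1) y, (0 : Fin (k + 1)))))

lemma mem_TT (B : Finset (Fin k → ℤ)) (z : ℤ) (e : (Fin (k + 1) → ℤ) × Fin (k + 1)) :
    e ∈ TT B z ↔ (∃ y ∈ B, ∃ i : Fin k, e = (pt z y, i.succ)) ∨ (∃ y ∈ B, e = (pt z y, 0)) ∨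
      ∃ y ∈ B, e = (pt (z - 1) y, 0) := by
  classical
  unfold TT
  rw [Finset.mem_union, Finset.mem_union, Finset.mem_image, Finset.mem_image, Finset.mem_image]
  constructor
  · rintro (⟨p, hp, rfl⟩ | ⟨y, hy, rfl⟩ | ⟨y, hy, rfl⟩)
    · exact Or.inl ⟨p.1, (Finset.mem_product.1 hp).1, p.2, rfl⟩
    · exact Or.inr (Or.inl ⟨y, hy, rfl⟩)
    · exact Or.inr (Or.inr ⟨y, hy, rfl⟩)
  · rintro (⟨y, hy, i, rfl⟩ | ⟨y, hy, rfl⟩ | ⟨y, hy, rfl⟩)
    · exact Or.inl ⟨(y, i), Finset.mem_product.2 ⟨hy, Finset.mem_univ _⟩, rfl⟩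
    · exact Or.inr (Or.inl ⟨y, hy, rfl⟩)
    · exact Or.inr (Or.inr ⟨y, hy, rfl⟩)

lemma ev_TT {B : Finset (Fin k → ℤ)} {z : ℤ} (hz : Even z) {e : (Fin (k + 1) → ℤ) × Fin (k + 1)}
    (he : e ∈ TT B z) : ev (e.1 0) = z := by
  rcases (mem_TT B z e).1 he with ⟨y, -, i, rfl⟩ | ⟨y, -, rfl⟩ | ⟨y, -, rfl⟩
  · simp [ev, pt_zero, hz]
  · simp [ev, pt_zero, hz]
  · have h1 : ¬ Even (z - 1) := by
      intro h
      have := h.sub hz
      rcases this with ⟨r, hr⟩
      omega
    simp [ev, pt_zero, h1]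

lemma card_TT (B : Finset (Fin k → ℤ)) (z : ℤ) : (TT B z).card ≤ (k + 2) * B.card := by
  classical
  unfold TT
  refine (Finset.card_union_le _ _).trans ?_
  have h1 := Finset.card_image_le (s := B ×ˢ (Finset.univ : Finset (Fin k)))
    (f := fun p => (pt z p.1, p.2.succ))
  rw [Finset.card_product, Finset.card_univ, Fintype.card_fin] at h1
  have h2 := (Finset.card_union_le (B.image (fun y => (pt z y, (0 : Fin (k + 1)))))
    (B.image (fun y => (pt (z - 1) y, (0 : Fin (k + 1)))))).trans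
    (add_le_add Finset.card_image_le Finset.card_image_le)
  calc _ ≤ B.card * k + (B.card + B.card) := add_le_add h1 h2
    _ = (k + 2) * B.card := by ring

/-- the event of the column `z` -/
def EV (c : ℝ) (B : ℕ → Finset (Fin k → ℤ)) (z : ℕ) :
    Set ((Fin (k + 1) → ℤ) × Fin (k + 1) → ℝ) :=
  Set.pi (TT (B z) z : Set _) (win c B)

lemma pin_of_EV {c : ℝ} {B : ℕ → Finset (Fin k → ℤ)} {z : ℕ} (hz : Even z)
    {J : (Fin (k + 1) → ℤ) × Fin (k + 1) → ℝ} (hJ : J ∈ EV c B z) : Pin c B J z := by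
  have hz' : Even (z : ℤ) := by exact_mod_cast hz
  have hw : ∀ e ∈ TT (B z) z, J e ∈ win c B e := fun e he => hJ e (Finset.mem_coe.2 he)
  intro y hy
  refine ⟨fun i => ?_, ?_, ?_⟩
  · have h1 := hw (pt z y, i.succ) ((mem_TT _ _ _).2 (Or.inl ⟨y, hy, i, rfl⟩))
    unfold win at h1
    rw [if_neg (Fin.succ_ne_zero i)] at h1
    exact h1
  · have he := (mem_TT (B z) z (pt z y, 0)).2 (Or.inr (Or.inl ⟨y, hy, rfl⟩))
    have h1 := hw _ he
    unfold win at h1
    rw [if_pos rfl, ev_TT hz' he, Int.toNat_natCast] at h1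
    exact abs_lt.2 h1
  · have he := (mem_TT (B z) z (pt ((z : ℤ) - 1) y, 0)).2 (Or.inr (Or.inr ⟨y, hy, rfl⟩))
    have h1 := hw _ he
    unfold win at h1
    rw [if_pos rfl, ev_TT hz' he, Int.toNat_natCast] at h1
    exact abs_lt.2 h1

lemma win_meas (c : ℝ) (B : ℕ → Finset (Fin k → ℤ)) (e : (Fin (k + 1) → ℤ) × Fin (k + 1)) :
    MeasurableSet (win c B e) := by
  unfold win
  split_ifs
  · exact measurableSet_Ioo
  · exact measurableSet_Ioi

lemma EV_meas (c : ℝ) (B : ℕ → Finset (Fin k → ℤ)) (z : ℕ) : MeasurableSet (EV c B z) :=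
  MeasurableSet.pi (Finset.countable_toSet _) fun e _ => win_meas c B e

variable (μ : Measure ℝ) [IsProbabilityMeasure μ]

lemma indep (c : ℝ) (B : ℕ → Finset (Fin k → ℤ)) :
    iIndepSet (fun j : ℕ => EV c B (2 * (j + 1)))
      (Measure.infinitePi fun _ : (Fin (k + 1) → ℤ) × Fin (k + 1) => μ) := by
  classical
  rw [iIndepSet_iff_meas_biInter fun j => EV_meas c B _]
  intro s
  have h1 : (⋂ j ∈ s, EV c B (2 * (j + 1))) =
      Set.pi ((s.biUnion fun j => TT (B (2 * (j + 1))) ((2 * (j + 1) : ℕ) : ℤ) :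
        Finset ((Fin (k + 1) → ℤ) × Fin (k + 1))) : Set _) (win c B) := by
    ext J
    simp only [EV, Set.mem_iInter, Set.mem_pi, Finset.mem_coe, Finset.mem_biUnion]
    constructor
    · rintro h e ⟨j, hj, he⟩
      exact h j hj e he
    · intro h j hj e he
      exact h e ⟨j, hj, he⟩
  rw [h1, Measure.infinitePi_pi _ fun e _ => win_meas c B e]
  rw [Finset.prod_biUnion]
  · refine Finset.prod_congr rfl fun j _ => ?_
    unfold EV
    rw [Measure.infinitePi_pi _ fun e _ => win_meas c B e]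
  · intro i _ j _ hij
    rw [Function.onFun, Finset.disjoint_left]
    intro e h1 h2
    have e1 := ev_TT (by rw [Nat.cast_mul]; exact even_two_mul _) h1
    have e2 := ev_TT (by rw [Nat.cast_mul]; exact even_two_mul _) h2
    rw [e1] at e2
    apply hij
    have : 2 * (i + 1) = 2 * (j + 1) := by exact_mod_cast e2
    omega

/-- the probability of the event of a column -/
lemma EV_ge {c A κ : ℝ} (hc : 0 < c) (hc1 : c ≤ 1) (hA : 0 ≤ A) (hκ : 0 < κ)
    (hp : 0 < μ (Set.Ioi c))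
    (hμ : ∀ ε : ℝ, 0 < ε → ε ≤ 1 → κ * ε ^ A ≤ (μ (Set.Ioo (-ε) ε)).toReal) :
    ∃ C : ℝ, 0 < C ∧ ∀ (B : ℕ → Finset (Fin k → ℤ)) (z : ℕ), Even z → (B z).Nonempty →
      ENNReal.ofReal (Real.exp (-(C * ((B z).card * Real.log ((B z).card + 1))))) ≤
        (Measure.infinitePi fun _ : (Fin (k + 1) → ℤ) × Fin (k + 1) => μ) (EV c B z) := by
  set δ : ℝ := (μ (Set.Ioi c)).toReal with hδ
  have hδ0 : 0 < δ := ENNReal.toReal_pos hp.ne' (measure_ne_top _ _)
  set δ' : ℝ := min 1 (min δ (κ * (c / 4) ^ A)) with hδ'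
  have hc4 : 0 < (c / 4) ^ A := Real.rpow_pos_of_pos (by positivity) _
  have hδ'0 : 0 < δ' := lt_min one_pos (lt_min hδ0 (by positivity))
  have hδ'1 : δ' ≤ 1 := min_le_left _ _
  have hlog2 : 0 < Real.log 2 := Real.log_pos (by norm_num)
  set C1 : ℝ := -Real.log δ' / Real.log 2 + A with hC1
  have hlogδ : 0 ≤ -Real.log δ' := by
    have := Real.log_nonpos hδ'0.le hδ'1
    linarith
  have hC10 : 0 ≤ C1 := add_nonneg (div_nonneg hlogδ hlog2.le) hA
  refine ⟨(C1 + 1) * (k + 2), by positivity, fun B z hz hne => ?_⟩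
  have hb : 1 ≤ (B z).card := Finset.card_pos.2 hne
  obtain ⟨b, hbd⟩ : ∃ b : ℝ, b = ((B z).card : ℝ) := ⟨_, rfl⟩
  rw [← hbd]
  have hb1 : 1 ≤ b := by rw [hbd]; exact_mod_cast hb
  set q : ℝ := Real.exp (-(C1 * Real.log (b + 1))) with hq
  have hlogb : Real.log 2 ≤ Real.log (b + 1) := Real.log_le_log (by norm_num) (by linarith)
  have hq1 : q ≤ 1 := by
    rw [hq, Real.exp_le_one_iff]
    have : 0 ≤ C1 * Real.log (b + 1) := mul_nonneg hC10 (hlog2.le.trans hlogb)
    linarith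
  have hqδ : q ≤ δ' * b ^ (-A) := by
    have h1 : Real.log δ' ≥ -(-Real.log δ' / Real.log 2 * Real.log (b + 1)) := by
      have : -Real.log δ' / Real.log 2 * Real.log 2 ≤
          -Real.log δ' / Real.log 2 * Real.log (b + 1) :=
        mul_le_mul_of_nonneg_left hlogb (div_nonneg hlogδ hlog2.le)
      rw [div_mul_cancel₀ _ hlog2.ne'] at this
      linarith
    have h2 : A * Real.log b ≤ A * Real.log (b + 1) :=
      mul_le_mul_of_nonneg_left (Real.log_le_log (by linarith) (by linarith)) hA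
    calc q ≤ Real.exp (Real.log δ' + Real.log b * (-A)) := by
          rw [hq]
          apply Real.exp_le_exp.2
          rw [hC1]
          linarith
      _ = δ' * b ^ (-A) := by
          rw [Real.exp_add, Real.exp_log hδ'0, Real.rpow_def_of_pos (by linarith)]
  have hbA : b ^ (-A) ≤ 1 := Real.rpow_le_one_of_one_le_of_nonpos hb1 (by linarith)
  have hbA0 : 0 < b ^ (-A) := Real.rpow_pos_of_pos (by linarith) _
  have hz' : Even (z : ℤ) := by exact_mod_cast hz
  have hwin : ∀ e ∈ TT (B z) z, ENNReal.ofReal q ≤ μ (win c B e) := by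
    intro e he
    have hev := ev_TT hz' he
    unfold win
    split_ifs with h0
    · rw [hev, Int.toNat_natCast, ← hbd]
      rw [← ENNReal.ofReal_toReal (measure_ne_top μ (Set.Ioo (-(c / (4 * b))) (c / (4 * b))))]
      refine ENNReal.ofReal_le_ofReal ?_
      refine le_trans ?_ (hμ (c / (4 * b)) (by positivity) ?_)
      · refine hqδ.trans ?_
        have h1 : (c / (4 * b)) ^ A = (c / 4) ^ A * b ^ (-A) := by
          rw [← div_div, Real.div_rpow (by positivity) (by linarith), Real.rpow_neg (by linarith)]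
          rfl
        rw [h1, ← mul_assoc]
        refine mul_le_mul_of_nonneg_right ?_ hbA0.le
        exact (min_le_right _ _).trans (min_le_right _ _)
      · rw [div_le_one (by positivity)]
        linarith
    · rw [← ENNReal.ofReal_toReal (measure_ne_top μ (Set.Ioi c))]
      refine ENNReal.ofReal_le_ofReal ?_
      refine hqδ.trans ?_
      calc δ' * b ^ (-A) ≤ δ' * 1 := mul_le_mul_of_nonneg_left hbA hδ'0.le
        _ ≤ δ := by rw [mul_one]; exact (min_le_right _ _).trans (min_le_left _ _)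
  unfold EV
  rw [Measure.infinitePi_pi _ fun e _ => win_meas c B e]
  refine le_trans ?_ (Finset.pow_card_le_prod _ _ _ hwin)
  rw [← ENNReal.ofReal_pow (Real.exp_pos _).le]
  refine ENNReal.ofReal_le_ofReal ?_
  have hcard : ((TT (B z) z).card : ℝ) ≤ (k + 2) * b := by
    have := card_TT (B z) z
    rw [hbd]
    exact_mod_cast this
  rw [← Real.exp_nat_mul]
  apply Real.exp_le_exp.2
  have hL0 : 0 ≤ Real.log (b + 1) := hlog2.le.trans hlogb
  have h1 : (TT (B z) z).card * (C1 * Real.log (b + 1)) ≤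
      ((k + 2) * b) * ((C1 + 1) * Real.log (b + 1)) := by
    refine mul_le_mul hcard ?_ (mul_nonneg hC10 hL0) (by positivity)
    exact mul_le_mul_of_nonneg_right (by linarith) hL0
  linarith

/-- **Infinitely many pinned columns.** -/
theorem pins {c A κ : ℝ} (hc : 0 < c) (hc1 : c ≤ 1) (hA : 0 ≤ A) (hκ : 0 < κ)
    (hp : 0 < μ (Set.Ioi c))
    (hμ : ∀ ε : ℝ, 0 < ε → ε ≤ 1 → κ * ε ^ A ≤ (μ (Set.Ioo (-ε) ε)).toReal) :
    ∃ C : ℝ, 0 < C ∧ ∀ B : ℕ → Finset (Fin k → ℤ), Monotone B → (∀ n, (B n).Nonempty) →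
      ¬ Summable (fun n => Real.exp (-(C * ((B n).card * Real.log ((B n).card + 1))))) →
      ∀ᵐ J ∂(Measure.infinitePi fun _ : (Fin (k + 1) → ℤ) × Fin (k + 1) => μ),
        ∀ n0 : ℕ, ∃ z : ℕ, n0 ≤ z ∧ Pin c B J z := by
  obtain ⟨C, hC, hge⟩ := EV_ge (k := k) μ hc hc1 hA hκ hp hμ
  refine ⟨C, hC, fun B hB hne hsum => ?_⟩
  set f : ℕ → ℝ := fun n => Real.exp (-(C * ((B n).card * Real.log ((B n).card + 1)))) with hf
  have hf0 : ∀ n, 0 ≤ f n := fun n => (Real.exp_pos _).le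
  have hanti : Antitone f := by
    intro m n hmn
    simp only [hf]
    apply Real.exp_le_exp.2
    have h1 : ((B m).card : ℝ) ≤ (B n).card := by exact_mod_cast Finset.card_le_card (hB hmn)
    have h2 : Real.log ((B m).card + 1) ≤ Real.log ((B n).card + 1) :=
      Real.log_le_log (by positivity) (by linarith)
    have h3 : 0 ≤ Real.log (((B m).card : ℝ) + 1) := Real.log_nonneg (by
      have : (0 : ℝ) ≤ (B m).card := Nat.cast_nonneg _
      linarith)
    have h4 := mul_le_mul h1 h2 h3 (Nat.cast_nonneg _)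
    have h5 := mul_le_mul_of_nonneg_left h4 hC.le
    linarith
  have hsum2 : ¬ Summable (fun j : ℕ => f (2 * (j + 1))) := by
    intro hs
    apply hsum
    have h1 : Summable (fun j : ℕ => f (2 * j)) := by
      rw [← summable_nat_add_iff 1]
      exact hs
    have h2 : Summable (fun j : ℕ => f (2 * j + 1)) :=
      Summable.of_nonneg_of_le (fun j => hf0 _) (fun j => hanti (by omega)) h1
    exact h1.even_add_odd h2
  set P := Measure.infinitePi fun _ : (Fin (k + 1) → ℤ) × Fin (k + 1) => μ with hP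
  have htop : (∑' j : ℕ, P (EV c B (2 * (j + 1)))) = ⊤ := by
    by_contra hcon
    apply hsum2
    refine Summable.of_nonneg_of_le (fun j => hf0 _) (fun j => ?_)
      (ENNReal.summable_toReal hcon)
    have h1 := hge B (2 * (j + 1)) (even_two_mul _) (hne _)
    rw [← ENNReal.ofReal_le_iff_le_toReal (measure_ne_top _ _)]
    exact h1
  have hlim := measure_limsup_eq_one (fun j => EV_meas c B (2 * (j + 1))) (indep μ c B) htop
  have hae : ∀ᵐ J ∂P, J ∈ Filter.limsup (fun j : ℕ => EV c B (2 * (j + 1))) Filter.atTop := by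
    have hm : MeasurableSet (Filter.limsup (fun j : ℕ => EV c B (2 * (j + 1))) Filter.atTop) :=
      MeasurableSet.measurableSet_limsup fun j => EV_meas c B _
    exact (mem_ae_iff_prob_eq_one hm).2 hlim
  filter_upwards [hae] with J hJ
  rw [Filter.mem_limsup_iff_frequently_mem] at hJ
  intro n0
  obtain ⟨j, hj, hJj⟩ := (Filter.frequently_atTop.1 hJ) n0
  exact ⟨2 * (j + 1), by omega, pin_of_EV (even_two_mul _) hJj⟩

end Pool.Agent.Zk60.EH
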