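import Pool.Agent.TH761.EB.Gen

/-!
# Regions of `ℤ^(k + 1)` with nondecreasing cross-sections
-/

set_option autoImplicit false

open Finset MeasureTheory ProbabilityTheory

namespace Pool.Agent.Zk60.EH

open Pool.Agent.TH761.EB (Cf GS agree exists_gs gen_ae)

variable {k : ℕ}

/-- first end of a bond -/
def aa (e : (Fin (k + 1) → ℤ) × Fin (k + 1)) : Fin (k + 1) → ℤ := e.1

/-- second end of a bond -/
def bb (e : (Fin (k + 1) → ℤ) × Fin (k + 1)) : Fin (k + 1) → ℤ := e.1 + Pi.single e.2 1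

/-- the region with the cross-sections `B n`, `n ≥ 0` -/
def region (B : ℕ → Finset (Fin k → ℤ)) : Set (Fin (k + 1) → ℤ) :=
  {v | 0 ≤ v 0 ∧ Fin.tail v ∈ B (v 0).toNat}

/-- the point with the coordinates `n`, `y` -/
def pt (n : ℤ) (y : Fin k → ℤ) : Fin (k + 1) → ℤ := Fin.cons n y

lemma pt_zero (n : ℤ) (y : Fin k → ℤ) : pt n y 0 = n := rfl

lemma pt_tail (n : ℤ) (y : Fin k → ℤ) : Fin.tail (pt n y) = y := rfl

lemma pt_eta (v : Fin (k + 1) → ℤ) : pt (v 0) (Fin.tail v) = v := Fin.cons_self_tail v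

lemma pt_inj {n n' : ℤ} {y y' : Fin k → ℤ} (h : pt n y = pt n' y') : n = n' ∧ y = y' := by
  refine ⟨?_, ?_⟩
  · rw [← pt_zero n y, h, pt_zero]
  · rw [← pt_tail n y, h, pt_tail]

lemma bb_l (n : ℤ) (y : Fin k → ℤ) : bb (pt n y, 0) = pt (n + 1) y := by
  funext j
  refine Fin.cases ?_ (fun i => ?_) j
  · simp [bb, pt]
  · simp [bb, pt]

lemma bb_r (n : ℤ) (y : Fin k → ℤ) (i : Fin k) :
    bb (pt n y, i.succ) = pt n (y + Pi.single i 1) := by
  funext j
  refine Fin.cases ?_ (fun l => ?_) j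
  · have h0 : (0 : Fin (k + 1)) ≠ i.succ := (Fin.succ_ne_zero _).symm
    simp [bb, pt, h0]
  · by_cases h : l = i
    · subst h; simp [bb, pt]
    · have h' : l.succ ≠ i.succ := fun hc => h (Fin.succ_injective _ hc)
      simp [bb, pt, h, h']

lemma bb_zero (e : (Fin (k + 1) → ℤ) × Fin (k + 1)) : bb e 0 = aa e 0 ∨ bb e 0 = aa e 0 + 1 := by
  obtain ⟨v, i⟩ := e
  refine Fin.cases ?_ (fun j => ?_) i
  · right; simp [aa, bb]
  · left
    have h0 : (0 : Fin (k + 1)) ≠ j.succ := (Fin.succ_ne_zero _).symm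
    simp [aa, bb, h0]

lemma pt_mem {B : ℕ → Finset (Fin k → ℤ)} (n : ℕ) (y : Fin k → ℤ) :
    pt (n : ℤ) y ∈ region B ↔ y ∈ B n := by
  unfold region
  rw [Set.mem_setOf_eq, pt_zero, pt_tail, Int.toNat_natCast]
  exact ⟨fun h => h.2, fun h => ⟨by positivity, h⟩⟩

lemma reg_fin (B : ℕ → Finset (Fin k → ℤ)) (z : ℤ) : (region B ∩ {v | v 0 ≤ z}).Finite := by
  classical
  refine (Finset.finite_toSet ((Icc 0 z).biUnion fun n => (B n.toNat).image (pt n))).subset ?_
  rintro v ⟨hv, hz⟩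
  rw [Finset.mem_coe, Finset.mem_biUnion]
  refine ⟨v 0, Finset.mem_Icc.2 ⟨hv.1, hz⟩, ?_⟩
  rw [Finset.mem_image]
  exact ⟨_, hv.2, pt_eta v⟩

lemma fib (x : Fin (k + 1) → ℤ) :
    {e : (Fin (k + 1) → ℤ) × Fin (k + 1) | aa e = x ∨ bb e = x}.Finite := by
  classical
  refine (Finset.finite_toSet (((Finset.univ : Finset (Fin (k + 1))).image fun i => (x, i)) ∪
    ((Finset.univ : Finset (Fin (k + 1))).image fun i => (x - Pi.single i 1, i)))).subset ?_
  rintro ⟨v, i⟩ (h | h)
  · rw [Finset.mem_coe, Finset.mem_union, Finset.mem_image]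
    left
    exact ⟨i, Finset.mem_univ _, by rw [← h]; rfl⟩
  · rw [Finset.mem_coe, Finset.mem_union, Finset.mem_image, Finset.mem_image]
    right
    refine ⟨i, Finset.mem_univ _, ?_⟩
    rw [← h]
    simp [bb]

lemma front {B : ℕ → Finset (Fin k → ℤ)} (hB : Monotone B) (D : Finset (Fin (k + 1) → ℤ))
    (hD : D.Nonempty) (hDR : (D : Set (Fin (k + 1) → ℤ)) ⊆ region B) :
    ∃ e : (Fin (k + 1) → ℤ) × Fin (k + 1), aa e ∈ D ∧ bb e ∈ region B ∧ bb e ∉ D := by
  obtain ⟨x, hx, hmax⟩ := Finset.exists_max_image D (fun v => v 0) hD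
  have h1 : bb (x, (0 : Fin (k + 1))) = pt (x 0 + 1) (Fin.tail x) := by
    rw [← bb_l, pt_eta]
  have hx0 := (hDR hx).1
  refine ⟨(x, 0), hx, ?_, fun hc => ?_⟩
  · rw [h1]
    refine ⟨by rw [pt_zero]; omega, ?_⟩
    rw [pt_tail, pt_zero]
    exact hB (Int.toNat_le_toNat (by omega)) (hDR hx).2
  · have := hmax _ hc
    rw [h1, pt_zero] at this
    omega

/-- uniqueness from infinitely many pinned columns -/
theorem unique_region {B : ℕ → Finset (Fin k → ℤ)} (hne : ∀ n, (B n).Nonempty)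
    {J : (Fin (k + 1) → ℤ) × Fin (k + 1) → ℝ}
    {σ τ : (Fin (k + 1) → ℤ) → ℝ} (hσ : GS aa bb (region B) J σ) (hτ : GS aa bb (region B) J τ)
    (hpin : ∀ n0 : ℕ, ∃ z : ℕ, n0 ≤ z ∧ ∀ ρ, GS aa bb (region B) J ρ →
      ∀ y ∈ B z, ∀ y' ∈ B z, ρ (pt z y) = ρ (pt z y')) :
    τ = σ ∨ τ = -σ := by
  have key : ∀ n0 : ℕ, ∃ z : ℕ, n0 ≤ z ∧ ∃ r : ℝ, (r = 1 ∨ r = -1) ∧
      ∀ v : Fin (k + 1) → ℤ, v 0 ≤ z → σ v = r * τ v := by
    intro n0
    obtain ⟨z, hz, hp⟩ := hpin n0
    obtain ⟨y0, hy0⟩ := hne z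
    have hc : pt (z : ℤ) y0 ∈ region B := (pt_mem z y0).2 hy0
    refine ⟨z, hz, σ (pt z y0) * τ (pt z y0), ?_, ?_⟩
    · rcases hσ.1.1 _ hc with h1 | h1 <;> rcases hτ.1.1 _ hc with h2 | h2 <;>
        rw [h1, h2] <;> norm_num
    · have hr : σ (pt z y0) * τ (pt z y0) = 1 ∨ σ (pt z y0) * τ (pt z y0) = -1 := by
        rcases hσ.1.1 _ hc with h1 | h1 <;> rcases hτ.1.1 _ hc with h2 | h2 <;>
          rw [h1, h2] <;> norm_num
      have h := agree hσ hτ hr (Λ := {v | v 0 ≤ z}) (reg_fin B z) ?_ ?_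
      · exact h
      · intro e ha hb
        have ha' : aa e 0 ≤ z := ha
        have hb' : ¬ bb e 0 ≤ z := hb
        have h0 : aa e 0 = z := by rcases bb_zero e with h1 | h1 <;> omega
        by_cases hR : aa e ∈ region B
        · have hy : Fin.tail (aa e) ∈ B z := by
            have := hR.2
            rwa [h0, Int.toNat_natCast] at this
          have he : aa e = pt z (Fin.tail (aa e)) := by rw [← h0, pt_eta]
          rw [he, hp σ hσ _ hy _ hy0, hp τ hτ _ hy _ hy0]
          rcases hτ.1.1 _ hc with h2 | h2 <;> rw [h2] <;> ring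
        · rw [hσ.1.2 _ hR, hτ.1.2 _ hR, mul_zero]
      · intro e hb ha
        exfalso
        have ha' : ¬ aa e 0 ≤ z := ha
        have hb' : bb e 0 ≤ z := hb
        rcases bb_zero e with h1 | h1 <;> omega
  obtain ⟨y0, hy0⟩ := hne 0
  have h00 : pt ((0 : ℕ) : ℤ) y0 ∈ region B := (pt_mem 0 y0).2 hy0
  set c0 := pt ((0 : ℕ) : ℤ) y0 with hc0
  have hall : ∀ v, σ v = (σ c0 * τ c0) * τ v := by
    intro v
    obtain ⟨z, hz, r, hr, h⟩ := key (v 0).toNat
    have h1 := h v (by omega)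
    have h2 := h c0 (by have : c0 0 = 0 := rfl; omega)
    rw [h1, h2]
    rcases hτ.1.1 _ h00 with h3 | h3 <;> rw [h3] <;> ring
  rcases hσ.1.1 _ h00 with h1 | h1 <;> rcases hτ.1.1 _ h00 with h2 | h2
  · left; funext v; rw [hall v, h1, h2]; ring
  · right; funext v; rw [Pi.neg_apply, hall v, h1, h2]; ring
  · right; funext v; rw [Pi.neg_apply, hall v, h1, h2]; ring
  · left; funext v; rw [hall v, h1, h2]; ring

/-- `B` cannot be split into two parts without neighbours in each other -/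
def Conn (B : Finset (Fin k → ℤ)) : Prop :=
  ∀ A ⊆ B, A.Nonempty → A ≠ B → ∃ y ∈ A, ∃ y' ∈ B, y' ∉ A ∧
    ∃ i, y' = y + Pi.single i 1 ∨ y = y' + Pi.single i 1

/-- the conditions on the couplings at the column `z` -/
def Pin (c : ℝ) (B : ℕ → Finset (Fin k → ℤ)) (J : (Fin (k + 1) → ℤ) × Fin (k + 1) → ℝ)
    (z : ℕ) : Prop :=
  ∀ y ∈ B z, (∀ i : Fin k, c < J (pt z y, i.succ)) ∧ |J (pt z y, 0)| < c / (4 * (B z).card) ∧
    |J (pt ((z : ℤ) - 1) y, 0)| < c / (4 * (B z).card)

/-- **Pinned columns.** -/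
theorem pinned {B : ℕ → Finset (Fin k → ℤ)} {J : (Fin (k + 1) → ℤ) × Fin (k + 1) → ℝ} {c : ℝ}
    (hc : 0 < c) {z : ℕ} (hconn : Conn (B z)) (hpin : Pin c B J z) {ρ : (Fin (k + 1) → ℤ) → ℝ}
    (hρ : GS aa bb (region B) J ρ) : ∀ y ∈ B z, ∀ y' ∈ B z, ρ (pt z y) = ρ (pt z y') := by
  classical
  intro y1 hy1 y2 hy2
  by_contra hne
  set A : Finset (Fin k → ℤ) := (B z).filter (fun y => ρ (pt z y) = ρ (pt z y1)) with hA
  have hAB : A ⊆ B z := Finset.filter_subset _ _
  have hAne : A.Nonempty := ⟨y1, Finset.mem_filter.2 ⟨hy1, rfl⟩⟩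
  have hAneB : A ≠ B z := by
    intro h
    have h2 : y2 ∈ A := by rw [h]; exact hy2
    exact hne (Finset.mem_filter.1 h2).2.symm
  obtain ⟨s, hs, s', hs', hs'A, i0, hi0⟩ := hconn A hAB hAne hAneB
  have hpmB : ∀ y ∈ B z, ρ (pt z y) = 1 ∨ ρ (pt z y) = -1 := fun y hy =>
    hρ.1.1 _ ((pt_mem z y).2 hy)
  have hopp : ∀ y ∈ A, ∀ y' ∈ B z, y' ∉ A → ρ (pt z y) * ρ (pt z y') = -1 := by
    intro y hy y' hy' hy'A
    have h1 := (Finset.mem_filter.1 hy).2
    have h2 : ρ (pt z y') ≠ ρ (pt z y1) := fun h => hy'A (Finset.mem_filter.2 ⟨hy', h⟩)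
    rw [h1]
    rcases hpmB y1 hy1 with h3 | h3 <;> rcases hpmB y' hy' with h4 | h4
    · exact absurd (h4.trans h3.symm) h2
    · rw [h3, h4]; norm_num
    · rw [h3, h4]; norm_num
    · exact absurd (h4.trans h3.symm) h2
  have habs : ∀ v, |ρ v| ≤ 1 := by
    intro v
    by_cases hv : v ∈ region B
    · rcases hρ.1.1 v hv with h | h <;> rw [h] <;> norm_num
    · rw [hρ.1.2 v hv]; norm_num
  have hprod : ∀ v v', |ρ v * ρ v'| ≤ 1 := by
    intro v v'
    rw [abs_mul]
    exact mul_le_one₀ (habs v) (abs_nonneg _) (habs v')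
  set inA : (Fin (k + 1) → ℤ) → Prop := fun v => v 0 = z ∧ Fin.tail v ∈ A with hinA
  set ρ' : (Fin (k + 1) → ℤ) → ℝ := fun v => if inA v then -ρ v else ρ v with hρ'
  have inA_pt : ∀ y, inA (pt z y) ↔ y ∈ A := by
    intro y
    simp only [hinA, pt_zero, pt_tail, true_and]
  have ninA : ∀ n y, n ≠ (z : ℤ) → ¬ inA (pt n y) := by
    intro n y hn h
    exact hn h.1
  have hcf : Cf (region B) ρ' := by
    refine ⟨fun v hv => ?_, fun v hv => ?_⟩
    · simp only [hρ']
      split_ifs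
      · rcases hρ.1.1 v hv with h | h <;> rw [h] <;> norm_num
      · exact hρ.1.1 v hv
    · simp only [hρ', hρ.1.2 v hv]; simp
  have hfin : {v | ρ' v ≠ ρ v}.Finite := by
    refine (Finset.finite_toSet (A.image (pt (z : ℤ)))).subset fun v hv => ?_
    have hv1 : inA v := by
      by_contra hcon
      apply hv
      simp only [hρ', hcon, if_false]
    rw [Finset.mem_coe, Finset.mem_image]
    exact ⟨Fin.tail v, hv1.2, by rw [← hv1.1, pt_eta]⟩
  have hne' : ρ' ≠ ρ := by
    intro h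
    have h1 := congrFun h (pt z y1)
    simp only [hρ', (inA_pt y1).2 (Finset.mem_filter.2 ⟨hy1, rfl⟩), if_true] at h1
    rcases hpmB y1 hy1 with h2 | h2 <;> rw [h2] at h1 <;> norm_num at h1
  have hpos := hρ.2 ρ' hcf hfin hne'
  set t : (Fin (k + 1) → ℤ) × Fin (k + 1) → ℝ := fun e =>
    J e * (ρ (aa e) * ρ (bb e) - ρ' (aa e) * ρ' (bb e)) with ht
  set S0 : Finset ((Fin (k + 1) → ℤ) × Fin (k + 1)) :=
    A.image (fun y => (pt (z : ℤ) y, (0 : Fin (k + 1)))) ∪
      A.image (fun y => (pt ((z : ℤ) - 1) y, (0 : Fin (k + 1)))) with hS0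
  set S2 : Finset ((Fin (k + 1) → ℤ) × Fin (k + 1)) :=
    (A ×ˢ (Finset.univ : Finset (Fin k))).image (fun p => (pt (z : ℤ) p.1, p.2.succ)) ∪
      (A ×ˢ (Finset.univ : Finset (Fin k))).image
        (fun p => (pt (z : ℤ) (p.1 - Pi.single p.2 1), p.2.succ)) with hS2
  have hsupp : Function.support t ⊆ ((S0 ∪ S2 : Finset _) : Set _) := by
    rintro ⟨v, i⟩ he
    rw [Function.mem_support] at he
    rw [Finset.mem_coe, Finset.mem_union]
    by_cases h1 : inA v
    · have hv : v = pt z (Fin.tail v) := by rw [← h1.1, pt_eta]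
      revert he
      refine Fin.cases ?_ (fun j => ?_) i
      · intro _
        left
        rw [hS0, Finset.mem_union, Finset.mem_image]
        left
        exact ⟨Fin.tail v, h1.2, by rw [← hv]⟩
      · intro _
        right
        rw [hS2, Finset.mem_union, Finset.mem_image]
        left
        exact ⟨(Fin.tail v, j), Finset.mem_product.2 ⟨h1.2, Finset.mem_univ _⟩, by rw [← hv]⟩
    · by_cases h2 : inA (bb (v, i))
      · revert he h2
        refine Fin.cases ?_ (fun j => ?_) i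
        · intro _ h2
          left
          have hb : bb (v, (0 : Fin (k + 1))) = pt (v 0 + 1) (Fin.tail v) := by
            rw [← bb_l, pt_eta]
          rw [hb] at h2
          have h3 : v 0 + 1 = z := h2.1
          have h4 : Fin.tail v ∈ A := h2.2
          rw [hS0, Finset.mem_union, Finset.mem_image, Finset.mem_image]
          right
          refine ⟨Fin.tail v, h4, ?_⟩
          have : ((z : ℤ) - 1) = v 0 := by omega
          rw [this, pt_eta]
        · intro _ h2
          right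
          have hb : bb (v, j.succ) = pt (v 0) (Fin.tail v + Pi.single j 1) := by
            rw [← bb_r, pt_eta]
          rw [hb] at h2
          have h3 : v 0 = z := h2.1
          have h4 : Fin.tail v + Pi.single j 1 ∈ A := h2.2
          rw [hS2, Finset.mem_union, Finset.mem_image, Finset.mem_image]
          right
          refine ⟨(Fin.tail v + Pi.single j 1, j), Finset.mem_product.2 ⟨h4, Finset.mem_univ _⟩, ?_⟩
          simp only [add_sub_cancel_right]
          rw [← h3, pt_eta]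
      · exfalso
        apply he
        have h1' : ¬ inA (aa (v, i)) := h1
        simp only [ht, hρ', h1', h2, if_false, sub_self, mul_zero]
  rw [finsum_eq_sum_of_support_subset t hsupp] at hpos
  have hcard0 : 0 < (B z).card := Finset.card_pos.2 ⟨y1, hy1⟩
  have hcardr : (0 : ℝ) < (B z).card := by exact_mod_cast hcard0
  set ε : ℝ := c / (4 * (B z).card) with hε
  have hε0 : 0 < ε := by positivity
  -- longitudinal bonds
  have hb0 : ∀ e ∈ S0, t e ≤ 2 * ε := by
    intro e he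
    rw [hS0, Finset.mem_union, Finset.mem_image, Finset.mem_image] at he
    rcases he with ⟨y, hy, rfl⟩ | ⟨y, hy, rfl⟩
    · have h1 := (hpin y (hAB hy)).2.1
      have h2 : aa (pt (z : ℤ) y, (0 : Fin (k + 1))) = pt z y := rfl
      simp only [ht, h2, bb_l, hρ', (inA_pt y).2 hy, ninA ((z : ℤ) + 1) y (by omega), if_true,
        if_false]
      have h3 : J (pt (z : ℤ) y, 0) * (ρ (pt z y) * ρ (pt (z + 1) y) -
          -ρ (pt z y) * ρ (pt (z + 1) y)) =
          2 * (J (pt (z : ℤ) y, 0) * (ρ (pt z y) * ρ (pt (z + 1) y))) := by ring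
      rw [h3]
      refine mul_le_mul_of_nonneg_left ?_ (by norm_num)
      refine (le_abs_self _).trans ?_
      rw [abs_mul]
      exact (mul_le_of_le_one_right (abs_nonneg _) (hprod _ _)).trans h1.le
    · have h1 := (hpin y (hAB hy)).2.2
      have h2 : aa (pt ((z : ℤ) - 1) y, (0 : Fin (k + 1))) = pt (z - 1) y := rfl
      have h4 : bb (pt ((z : ℤ) - 1) y, (0 : Fin (k + 1))) = pt z y := by
        rw [bb_l, sub_add_cancel]
      simp only [ht, h2, h4, hρ', (inA_pt y).2 hy, ninA ((z : ℤ) - 1) y (by omega), if_true,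
        if_false]
      have h3 : J (pt ((z : ℤ) - 1) y, 0) * (ρ (pt (z - 1) y) * ρ (pt z y) -
          ρ (pt (z - 1) y) * -ρ (pt z y)) =
          2 * (J (pt ((z : ℤ) - 1) y, 0) * (ρ (pt (z - 1) y) * ρ (pt z y))) := by ring
      rw [h3]
      refine mul_le_mul_of_nonneg_left ?_ (by norm_num)
      refine (le_abs_self _).trans ?_
      rw [abs_mul]
      exact (mul_le_of_le_one_right (abs_nonneg _) (hprod _ _)).trans h1.le
  -- transverse bonds
  have htr : ∀ (y : Fin k → ℤ) (i : Fin k), (y ∈ A ∨ y + Pi.single i 1 ∈ A) →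
      t (pt z y, i.succ) ≤ 0 ∧ (y ∈ B z → y + Pi.single i 1 ∈ B z →
        ¬ (y ∈ A ∧ y + Pi.single i 1 ∈ A) → t (pt z y, i.succ) ≤ -2 * c) := by
    intro y i hy
    have h2 : aa (pt (z : ℤ) y, i.succ) = pt z y := rfl
    have hte : t (pt z y, i.succ) = J (pt z y, i.succ) * (ρ (pt z y) * ρ (pt z (y + Pi.single i 1))
        - (if y ∈ A then -ρ (pt z y) else ρ (pt z y)) *
        (if y + Pi.single i 1 ∈ A then -ρ (pt z (y + Pi.single i 1)) else
          ρ (pt z (y + Pi.single i 1)))) := by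
      simp only [ht, h2, bb_r, hρ']
      congr 2
      simp only [inA_pt]
    by_cases ha : y ∈ A <;> by_cases hb : y + Pi.single i 1 ∈ A
    · have e1 : t (pt z y, i.succ) = 0 := by
        rw [hte]
        simp only [ha, hb, if_true]
        ring
      exact ⟨e1.le, fun _ _ h => absurd ⟨ha, hb⟩ h⟩
    · have hJ := (hpin y (hAB ha)).1 i
      by_cases hbB : y + Pi.single i 1 ∈ B z
      · have e1 : t (pt z y, i.succ) = -2 * J (pt z y, i.succ) := by
          rw [hte]
          simp only [ha, hb, if_true, if_false]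
          have := hopp y ha _ hbB hb
          linear_combination (2 * J (pt z y, i.succ)) * this
        rw [e1]
        exact ⟨by linarith, fun _ _ _ => by linarith⟩
      · have h0 : ρ (pt z (y + Pi.single i 1)) = 0 :=
          hρ.1.2 _ (fun h => hbB ((pt_mem z _).1 h))
        have e1 : t (pt z y, i.succ) = 0 := by
          rw [hte, h0]
          simp
        exact ⟨e1.le, fun _ h => absurd h hbB⟩
    · by_cases haB : y ∈ B z
      · have hJ := (hpin y haB).1 i
        have e1 : t (pt z y, i.succ) = -2 * J (pt z y, i.succ) := by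
          rw [hte]
          simp only [ha, hb, if_true, if_false]
          have := hopp _ hb y haB ha
          linear_combination (2 * J (pt z y, i.succ)) * this
        rw [e1]
        exact ⟨by linarith, fun _ _ _ => by linarith⟩
      · have h0 : ρ (pt z y) = 0 := hρ.1.2 _ (fun h => haB ((pt_mem z _).1 h))
        have e1 : t (pt z y, i.succ) = 0 := by
          rw [hte, h0]
          simp
        exact ⟨e1.le, fun h => absurd h haB⟩
    · exact absurd hy (by tauto)
  have hb2 : ∀ e ∈ S2, t e ≤ 0 := by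
    intro e he
    rw [hS2, Finset.mem_union, Finset.mem_image, Finset.mem_image] at he
    rcases he with ⟨p, hp, rfl⟩ | ⟨p, hp, rfl⟩
    · exact (htr p.1 p.2 (Or.inl (Finset.mem_product.1 hp).1)).1
    · refine (htr _ p.2 (Or.inr ?_)).1
      rw [sub_add_cancel]
      exact (Finset.mem_product.1 hp).1
  -- the cut bond
  obtain ⟨e0, he0, hte0⟩ : ∃ e0 ∈ S2, t e0 ≤ -2 * c := by
    rcases hi0 with h | h
    · refine ⟨(pt z s, i0.succ), ?_, ?_⟩
      · rw [hS2, Finset.mem_union, Finset.mem_image]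
        left
        exact ⟨(s, i0), Finset.mem_product.2 ⟨hs, Finset.mem_univ _⟩, rfl⟩
      · refine (htr s i0 (Or.inl hs)).2 (hAB hs) (by rw [← h]; exact hs') ?_
        rw [← h]
        exact fun hc => hs'A hc.2
    · refine ⟨(pt z s', i0.succ), ?_, ?_⟩
      · rw [hS2, Finset.mem_union, Finset.mem_image, Finset.mem_image]
        right
        refine ⟨(s, i0), Finset.mem_product.2 ⟨hs, Finset.mem_univ _⟩, ?_⟩
        simp only [h, add_sub_cancel_right]
      · refine (htr s' i0 (Or.inr (by rw [← h]; exact hs))).2 hs' (by rw [← h]; exact hAB hs) ?_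
        exact fun hc => hs'A hc.1
  have hdis : Disjoint S0 S2 := by
    rw [Finset.disjoint_left]
    intro e h1 h2
    have e1 : e.2 = 0 := by
      rw [hS0, Finset.mem_union, Finset.mem_image, Finset.mem_image] at h1
      rcases h1 with ⟨y, -, rfl⟩ | ⟨y, -, rfl⟩ <;> rfl
    have e2 : e.2 ≠ 0 := by
      rw [hS2, Finset.mem_union, Finset.mem_image, Finset.mem_image] at h2
      rcases h2 with ⟨y, -, rfl⟩ | ⟨y, -, rfl⟩ <;> exact Fin.succ_ne_zero _
    exact e2 e1
  rw [Finset.sum_union hdis] at hpos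
  have hs0 : ∑ e ∈ S0, t e ≤ c := by
    have h1 : (S0.card : ℝ) ≤ 2 * (B z).card := by
      have : S0.card ≤ (B z).card + (B z).card := by
        rw [hS0]
        refine (Finset.card_union_le _ _).trans (add_le_add ?_ ?_) <;>
          exact Finset.card_image_le.trans (Finset.card_le_card hAB)
      have h2 : (S0.card : ℝ) ≤ (B z).card + (B z).card := by exact_mod_cast this
      linarith
    calc ∑ e ∈ S0, t e ≤ S0.card • (2 * ε) := Finset.sum_le_card_nsmul _ _ _ hb0
      _ = S0.card * (2 * ε) := by rw [nsmul_eq_mul]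
      _ ≤ (2 * (B z).card) * (2 * ε) := mul_le_mul_of_nonneg_right h1 (by positivity)
      _ = c := by
        rw [hε]
        field_simp
        norm_num
  have hs2 : ∑ e ∈ S2, t e ≤ -2 * c := by
    rw [← Finset.add_sum_erase S2 t he0]
    have : ∑ e ∈ S2.erase e0, t e ≤ 0 :=
      Finset.sum_nonpos fun e he => hb2 e (Finset.mem_of_mem_erase he)
    linarith
  linarith

end Pool.Agent.Zk60.EH
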